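import Pool.Agent.Helper730.VarMinNil

set_option autoImplicit false

namespace Pool.Agent.Results.MP_5c28a4_al.LocallyNilpotent

open Pool.Agent.Helper730.VM

/-- For a variety of groups in which every finitely generated group is nilpotent, the conditions
(1) minimum condition on subvarieties, (2) at most countably many subvarieties and (3) no infinite
independent system of identities are equivalent. -/
theorem result :
    ∀ V : (G : Type) → [Group G] → Prop, IsVariety V →
      (∀ (G : Type) [Group G], Group.FG G → V G → Group.IsNilpotent G) →
      (MinCond V ↔ CountablyMany V) ∧ (CountablyMany V ↔ NoInfIndep V) := by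
  intro V hV hnil
  have h31 : NoInfIndep V → MinCond V := by
    apply min_of_noInfIndep hV
    intro G _ hfg hG
    exact minCond_varOf_nilpotent (hnil G hfg hG)
  exact ⟨⟨countable_of_min hV, fun h2 => h31 (noInfIndep_of_countable hV h2)⟩,
    ⟨noInfIndep_of_countable hV, fun h3 => countable_of_min hV (h31 h3)⟩⟩

end Pool.Agent.Results.MP_5c28a4_al.LocallyNilpotent
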